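import Pool.Agent.Gab7c47.Common
import Pool.Agent.H33Down.Down

/-!
# Gabow's conjecture for direct sums (helper47, double of helper87's `Gab7d_h87.Sum`)
-/

set_option autoImplicit false

namespace Pool.Agent.Gab7s47

universe u

open scoped Matroid
open Pool.Agent.H33Down (S)

variable {α : Type u}

/-- All mixed sets `S u v k`, completed by any base outside `K`, are bases. -/
def Half (M : Matroid α) (K : Set α) {n : ℕ} (u v : Fin n → α) : Prop :=
  ∀ Y, M.IsBase Y → ∀ k, k ≤ n → M.IsBase (S u v k ∪ (Y \ K))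

theorem S_sub {n : ℕ} (u v : Fin n → α) (k : ℕ) : S u v k ⊆ Set.range u ∪ Set.range v := by
  rintro x (⟨a, _, rfl⟩ | ⟨a, _, rfl⟩)
  · exact Or.inl ⟨a, rfl⟩
  · exact Or.inr ⟨a, rfl⟩

theorem S_zero {n : ℕ} (u v : Fin n → α) : S u v 0 = Set.range u := by
  ext x
  constructor
  · rintro (⟨a, _, rfl⟩ | ⟨a, ha, rfl⟩)
    · exact ⟨a, rfl⟩
    · omega
  · rintro ⟨a, rfl⟩
    exact Or.inl ⟨a, Nat.zero_le _, rfl⟩

theorem S_top {n : ℕ} (u v : Fin n → α) : S u v n = Set.range v := by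
  ext x
  constructor
  · rintro (⟨a, ha, rfl⟩ | ⟨a, _, rfl⟩)
    · have := a.2
      omega
    · exact ⟨a, rfl⟩
  · rintro ⟨a, rfl⟩
    exact Or.inr ⟨a, a.2, rfl⟩

theorem S_low {m n : ℕ} (u1 v1 : Fin m → α) (u2 v2 : Fin n → α) (k : ℕ) (hk : k ≤ m) :
    S (Fin.append u1 u2) (Fin.append v1 v2) k = S u1 v1 k ∪ Set.range u2 := by
  ext x
  constructor
  · rintro (⟨a, ha, rfl⟩ | ⟨a, ha, rfl⟩)
    · revert ha
      refine Fin.addCases (fun i => ?_) (fun i => ?_) a
      · intro ha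
        rw [Fin.append_left]
        exact Or.inl (Or.inl ⟨i, ha, rfl⟩)
      · intro _
        rw [Fin.append_right]
        exact Or.inr ⟨i, rfl⟩
    · revert ha
      refine Fin.addCases (fun i => ?_) (fun i => ?_) a
      · intro ha
        rw [Fin.append_left]
        exact Or.inl (Or.inr ⟨i, ha, rfl⟩)
      · intro ha
        rw [Fin.val_natAdd] at ha
        omega
  · rintro ((⟨i, hi, rfl⟩ | ⟨i, hi, rfl⟩) | ⟨i, rfl⟩)
    · exact Or.inl ⟨Fin.castAdd n i, hi, (Fin.append_left u1 u2 i).symm⟩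
    · exact Or.inr ⟨Fin.castAdd n i, hi, (Fin.append_left v1 v2 i).symm⟩
    · refine Or.inl ⟨Fin.natAdd m i, ?_, (Fin.append_right u1 u2 i).symm⟩
      rw [Fin.val_natAdd]
      omega

theorem S_high {m n : ℕ} (u1 v1 : Fin m → α) (u2 v2 : Fin n → α) (j : ℕ) :
    S (Fin.append u1 u2) (Fin.append v1 v2) (m + j) = S u2 v2 j ∪ Set.range v1 := by
  ext x
  constructor
  · rintro (⟨a, ha, rfl⟩ | ⟨a, ha, rfl⟩)
    · revert ha
      refine Fin.addCases (fun i => ?_) (fun i => ?_) a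
      · intro ha
        have := i.2
        rw [Fin.val_castAdd] at ha
        omega
      · intro ha
        rw [Fin.val_natAdd] at ha
        rw [Fin.append_right]
        exact Or.inl (Or.inl ⟨i, by omega, rfl⟩)
    · revert ha
      refine Fin.addCases (fun i => ?_) (fun i => ?_) a
      · intro _
        rw [Fin.append_left]
        exact Or.inr ⟨i, rfl⟩
      · intro ha
        rw [Fin.val_natAdd] at ha
        rw [Fin.append_right]
        exact Or.inl (Or.inr ⟨i, by omega, rfl⟩)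
  · rintro ((⟨i, hi, rfl⟩ | ⟨i, hi, rfl⟩) | ⟨i, rfl⟩)
    · refine Or.inl ⟨Fin.natAdd m i, ?_, (Fin.append_right u1 u2 i).symm⟩
      rw [Fin.val_natAdd]
      omega
    · refine Or.inr ⟨Fin.natAdd m i, ?_, (Fin.append_right v1 v2 i).symm⟩
      rw [Fin.val_natAdd]
      omega
    · refine Or.inr ⟨Fin.castAdd n i, ?_, (Fin.append_left v1 v2 i).symm⟩
      have := i.2
      rw [Fin.val_castAdd]
      omega

/-- Concatenation. -/
theorem half_append {M : Matroid α} {K1 K2 : Set α} (hK : Disjoint K1 K2) {m n : ℕ}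
    {u1 v1 : Fin m → α} {u2 v2 : Fin n → α} (h1 : Half M K1 u1 v1) (h2 : Half M K2 u2 v2)
    (hv1 : Set.range v1 ⊆ K1) (hu2 : Set.range u2 ⊆ K2) :
    Half M (K1 ∪ K2) (Fin.append u1 u2) (Fin.append v1 v2) := by
  intro Y hY k hk
  rcases Nat.lt_or_ge m k with hk1 | hk1
  · obtain ⟨j, rfl⟩ := Nat.exists_eq_add_of_le hk1.le
    rw [S_high]
    have e1 := h1 Y hY m le_rfl
    rw [S_top] at e1
    have e2 := h2 _ e1 j (by omega)
    have e : S u2 v2 j ∪ ((Set.range v1 ∪ Y \ K1) \ K2) =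
        S u2 v2 j ∪ Set.range v1 ∪ (Y \ (K1 ∪ K2)) := by
      rw [Set.union_sdiff_distrib, Set.sdiff_sdiff, Set.union_assoc]
      congr 1
      congr 1
      exact (hK.mono_left hv1).sdiff_eq_left
    rw [← e]
    exact e2
  · rw [S_low _ _ _ _ _ hk1]
    have e1 := h2 Y hY 0 (Nat.zero_le _)
    rw [S_zero] at e1
    have e2 := h1 _ e1 k hk1
    have e : S u1 v1 k ∪ ((Set.range u2 ∪ Y \ K2) \ K1) =
        S u1 v1 k ∪ Set.range u2 ∪ (Y \ (K1 ∪ K2)) := by
      rw [Set.union_sdiff_distrib, Set.sdiff_sdiff, Set.union_assoc, Set.union_comm K2 K1]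
      congr 1
      congr 1
      exact (hK.symm.mono_left hu2).sdiff_eq_left
    rw [← e]
    exact e2

/-- Listing a finite set. -/
theorem enum {T : Set α} (hT : T.Finite) {m : ℕ} (hm : T.ncard = m) :
    ∃ a : Fin m → α, Function.Injective a ∧ Set.range a = T := by
  have : Finite T := hT
  let e := (Finite.equivFinOfCardEq (α := T) (n := m) hm).symm
  refine ⟨fun i => (e i : α), fun i j hij => e.injective (Subtype.ext hij), ?_⟩
  ext x
  constructor
  · rintro ⟨i, rfl⟩
    exact (e i).2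
  · intro hx
    exact ⟨e.symm ⟨x, hx⟩, by simp⟩

/-- The interface: orderings in all ranks at most `N`. -/
def Up (N : ℕ) : Prop :=
  ∀ {β : Type u} (M : Matroid β) {r : ℕ}, r ≤ N → ∀ b b' : Fin r → β,
      Function.Injective b → Function.Injective b' → M.IsBase (Set.range b) →
      M.IsBase (Set.range b') →
      ∃ σ σ' : Equiv.Perm (Fin r), ∀ i : Fin (r + r),
        M.IsBase (Pool.Agent.Gab7c47.block (b ∘ σ) (b' ∘ σ') i)

/-- One separator. -/
theorem one {N : ℕ} (H : Up.{u} N) {M : Matroid α} {K B B' : Set α} (hBf : B.Finite)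
    (hK : ∀ X Y, M.IsBase X → M.IsBase Y → M.IsBase ((X ∩ K) ∪ (Y \ K)))
    (hB : M.IsBase B) (hB' : M.IsBase B') (hd : ((B \ B') ∩ K).ncard ≤ N) :
    ∃ (m : ℕ) (u v : Fin m → α), Function.Injective u ∧ Function.Injective v ∧
      Set.range u = B ∩ K ∧ Set.range v = B' ∩ K ∧ Half M K u v ∧ Half M K v u := by
  have hI : M.Indep (B \ K) := hB.indep.subset Set.sdiff_subset
  have hB'f : B'.Finite := hB.finite_of_finite hBf hB'
  have c1 : (M ／ (B \ K)).IsBase (B ∩ K) := by
    rw [hI.contract_isBase_iff]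
    exact ⟨by rw [Set.inter_union_sdiff]; exact hB,
      Set.disjoint_left.2 fun x h1 h2 => h2.2 h1.2⟩
  have c2 : (M ／ (B \ K)).IsBase (B' ∩ K) := by
    rw [hI.contract_isBase_iff]
    exact ⟨hK _ _ hB' hB, Set.disjoint_left.2 fun x h1 h2 => h2.2 h1.2⟩
  obtain ⟨a, ha, har⟩ := enum (hBf.subset Set.inter_subset_left) (rfl : (B ∩ K).ncard = _)
  obtain ⟨a', ha', har'⟩ := enum (hB'f.subset Set.inter_subset_left)
    (c2.ncard_eq_ncard_of_isBase c1)
  have hdd : (Set.range a \ Set.range a').ncard ≤ N := by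
    have : Set.range a \ Set.range a' = (B \ B') ∩ K := by
      rw [har, har']
      ext x
      constructor
      · rintro ⟨⟨h1, h2⟩, h3⟩
        exact ⟨⟨h1, fun h => h3 ⟨h, h2⟩⟩, h2⟩
      · rintro ⟨⟨h1, h2⟩, h3⟩
        exact ⟨⟨h1, h3⟩, fun h => h2 h.1⟩
    rw [this]
    exact hd
  obtain ⟨σ, σ', hσ⟩ := Pool.Agent.Gab7c47.few H (M ／ (B \ K)) a a' ha ha'
    (by rw [har]; exact c1) (by rw [har']; exact c2) hdd
  have hr1 : Set.range (a ∘ σ) = B ∩ K := by
    rw [Set.range_comp, σ.range_eq_univ, Set.image_univ, har]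
  have hr2 : Set.range (a' ∘ σ') = B' ∩ K := by
    rw [Set.range_comp, σ'.range_eq_univ, Set.image_univ, har']
  have hall := (Pool.Agent.H33Down.all_iff (fun X => (M ／ (B \ K)).IsBase X) (a ∘ σ)
    (a' ∘ σ')).1 hσ
  have fin : ∀ X : Set α, (M ／ (B \ K)).IsBase X → X ⊆ K → ∀ Y, M.IsBase Y →
      M.IsBase (X ∪ (Y \ K)) := by
    intro X hX hXK Y hY
    have h1 := hK _ _ ((hI.contract_isBase_iff.1 hX).1) hY
    have h2 : (X ∪ B \ K) ∩ K = X := by
      ext x
      constructor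
      · rintro ⟨h | h, h'⟩
        · exact h
        · exact (h.2 h').elim
      · intro h
        exact ⟨Or.inl h, hXK h⟩
    rwa [h2] at h1
  refine ⟨_, a ∘ σ, a' ∘ σ', ha.comp σ.injective, ha'.comp σ'.injective, hr1, hr2, ?_, ?_⟩
  · intro Y hY k hk
    rcases Nat.lt_or_ge k (B ∩ K).ncard with h | h
    · refine fin _ (hall k h).1 ((S_sub _ _ _).trans ?_) Y hY
      rw [hr1, hr2]
      exact Set.union_subset Set.inter_subset_right Set.inter_subset_right
    · obtain rfl : k = (B ∩ K).ncard := le_antisymm hk h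
      rw [S_top, hr2]
      exact hK _ _ hB' hY
  · intro Y hY k hk
    rcases Nat.lt_or_ge k (B ∩ K).ncard with h | h
    · refine fin _ (hall k h).2 ((S_sub _ _ _).trans ?_) Y hY
      rw [hr1, hr2]
      exact Set.union_subset Set.inter_subset_right Set.inter_subset_right
    · obtain rfl : k = (B ∩ K).ncard := le_antisymm hk h
      rw [S_top, hr1]
      exact hK _ _ hB hY

/-- **All separators.** -/
theorem many {N : ℕ} (H : Up.{u} N) {ι : Type*} {M : Matroid α} (f : α → ι) {B B' : Set α}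
    (hBf : B.Finite)
    (hf : ∀ (k : ι) (X Y : Set α), M.IsBase X → M.IsBase Y →
      M.IsBase ((X ∩ f ⁻¹' {k}) ∪ (Y \ f ⁻¹' {k})))
    (hB : M.IsBase B) (hB' : M.IsBase B')
    (hd : ∀ k, ((B \ B') ∩ f ⁻¹' {k}).ncard ≤ N) (T : Finset ι) :
    ∃ (m : ℕ) (u v : Fin m → α), Function.Injective u ∧ Function.Injective v ∧
      Set.range u = B ∩ f ⁻¹' T ∧ Set.range v = B' ∩ f ⁻¹' T ∧ Half M (f ⁻¹' T) u v ∧
      Half M (f ⁻¹' T) v u := by
  classical
  induction T using Finset.induction_on with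
  | empty =>
    refine ⟨0, Fin.elim0, Fin.elim0, fun i => i.elim0, fun i => i.elim0, ?_, ?_, ?_, ?_⟩
    · simp
    · simp
    · intro Y hY k hk
      obtain rfl : k = 0 := by omega
      rw [S_zero]
      simpa using hY
    · intro Y hY k hk
      obtain rfl : k = 0 := by omega
      rw [S_zero]
      simpa using hY
  | insert k T hk ih =>
    obtain ⟨m, u1, v1, i1, j1, ru1, rv1, h1, h1'⟩ := one H hBf (hf k) hB hB' (hd k)
    obtain ⟨n, u2, v2, i2, j2, ru2, rv2, h2, h2'⟩ := ih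
    have hdis : Disjoint (f ⁻¹' {k}) (f ⁻¹' (T : Set ι)) := by
      refine Disjoint.preimage f ?_
      rw [Set.disjoint_singleton_left]
      exact fun h => hk (Finset.mem_coe.1 h)
    have hun : f ⁻¹' ((insert k T : Finset ι) : Set ι) = f ⁻¹' {k} ∪ f ⁻¹' (T : Set ι) := by
      rw [Finset.coe_insert, Set.insert_eq, Set.preimage_union]
    have su1 : Set.range u1 ⊆ f ⁻¹' {k} := ru1 ▸ Set.inter_subset_right
    have sv1 : Set.range v1 ⊆ f ⁻¹' {k} := rv1 ▸ Set.inter_subset_right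
    have su2 : Set.range u2 ⊆ f ⁻¹' (T : Set ι) := ru2 ▸ Set.inter_subset_right
    have sv2 : Set.range v2 ⊆ f ⁻¹' (T : Set ι) := rv2 ▸ Set.inter_subset_right
    have ra : ∀ (x : Fin m → α) (y : Fin n → α),
        Set.range (Fin.append x y) = Set.range x ∪ Set.range y := by
      intro x y
      rw [← S_zero (Fin.append x y) (Fin.append x y), S_low _ _ _ _ _ (Nat.zero_le _), S_zero]
    have dj : ∀ (x : Fin m → α) (y : Fin n → α), Set.range x ⊆ f ⁻¹' {k} →
        Set.range y ⊆ f ⁻¹' (T : Set ι) → ∀ i j, x i ≠ y j := by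
      intro x y hx hy i j hij
      exact Set.disjoint_left.1 hdis (hx ⟨i, rfl⟩) (hij ▸ hy ⟨j, rfl⟩)
    refine ⟨m + n, Fin.append u1 u2, Fin.append v1 v2,
      Fin.append_injective_iff.2 ⟨i1, i2, dj _ _ su1 su2⟩,
      Fin.append_injective_iff.2 ⟨j1, j2, dj _ _ sv1 sv2⟩, ?_, ?_, ?_, ?_⟩
    · rw [ra, ru1, ru2, hun, Set.inter_union_distrib_left]
    · rw [ra, rv1, rv2, hun, Set.inter_union_distrib_left]
    · rw [hun]
      exact half_append hdis h1 h2 sv1 su2
    · rw [hun]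
      exact half_append hdis h1' h2' su1 sv2

/-- **Direct sums.** If the ground set is divided by the labels `f` into separators and each of
them contains at most `N` elements of `B \ B'` then the orderings exist. -/
theorem sums {N : ℕ}
    (H : ∀ {β : Type u} (M : Matroid β) {r : ℕ}, r ≤ N → ∀ b b' : Fin r → β,
      Function.Injective b → Function.Injective b' → M.IsBase (Set.range b) →
      M.IsBase (Set.range b') →
      ∃ σ σ' : Equiv.Perm (Fin r), ∀ i : Fin (r + r),
        M.IsBase (Pool.Agent.Gab7c47.block (b ∘ σ) (b' ∘ σ') i))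
    {ι : Type*} (M : Matroid α) (f : α → ι)
    (hf : ∀ (k : ι) (X Y : Set α), M.IsBase X → M.IsBase Y →
      M.IsBase ((X ∩ f ⁻¹' {k}) ∪ (Y \ f ⁻¹' {k})))
    {r : ℕ} (b b' : Fin r → α)
    (hb : Function.Injective b) (hb' : Function.Injective b')
    (hB : M.IsBase (Set.range b)) (hB' : M.IsBase (Set.range b'))
    (hd : ∀ k, ((Set.range b \ Set.range b') ∩ f ⁻¹' {k}).ncard ≤ N) :
    ∃ σ σ' : Equiv.Perm (Fin r), ∀ i : Fin (r + r),
      M.IsBase (Pool.Agent.Gab7c47.block (b ∘ σ) (b' ∘ σ') i) := by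
  classical
  let T : Finset ι := (Finset.univ.image (f ∘ b)) ∪ (Finset.univ.image (f ∘ b'))
  obtain ⟨m, u, v, hu, hv, ru, rv, h1, h2⟩ := many (N := N) (fun M _ hr b b' a1 a2 a3 a4 =>
    H M hr b b' a1 a2 a3 a4) f (Set.finite_range b) hf hB hB' hd T
  have s1 : Set.range b ⊆ f ⁻¹' (T : Set ι) := by
    rintro _ ⟨i, rfl⟩
    simp [T]
  have s2 : Set.range b' ⊆ f ⁻¹' (T : Set ι) := by
    rintro _ ⟨i, rfl⟩
    simp [T]
  rw [Set.inter_eq_left.2 s1] at ru
  rw [Set.inter_eq_left.2 s2] at rv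
  have card : ∀ {n : ℕ} (x : Fin n → α), Function.Injective x → (Set.range x).ncard = n := by
    intro n x hx
    rw [← Set.image_univ, Set.ncard_image_of_injective _ hx, Set.ncard_univ, Nat.card_fin]
  have hm : m = r := by
    rw [← card u hu, ru, card b hb]
  subst hm
  have perm : ∀ (x y : Fin m → α), Function.Injective x → Function.Injective y →
      Set.range x = Set.range y → ∃ σ : Equiv.Perm (Fin m), x ∘ σ = y := by
    intro x y _ hy hxy
    have : ∀ i, ∃ j, x j = y i := by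
      intro i
      have h : y i ∈ Set.range x := by
        rw [hxy]
        exact ⟨i, rfl⟩
      exact h
    choose g hg using this
    have hgi : Function.Injective g := by
      intro i j hij
      exact hy (by rw [← hg i, ← hg j, hij])
    exact ⟨Equiv.ofBijective g (Finite.injective_iff_bijective.1 hgi), funext hg⟩
  obtain ⟨σ, hσ⟩ := perm b u hb hu ru.symm
  obtain ⟨σ', hσ'⟩ := perm b' v hb' hv rv.symm
  refine ⟨σ, σ', ?_⟩
  rw [hσ, hσ']
  have e : Set.range b \ f ⁻¹' (T : Set ι) = ∅ := Set.sdiff_eq_empty.2 s1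
  refine (Pool.Agent.H33Down.all_iff (fun X => M.IsBase X) u v).2 fun k hk => ?_
  have e1 := h1 _ hB k hk.le
  have e2 := h2 _ hB k hk.le
  rw [e, Set.union_empty] at e1 e2
  exact ⟨e1, e2⟩

end Pool.Agent.Gab7s47
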